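import Pool.Agent.TH105.QH.Wide3

/-! Two blocks of points of arbitrary ratio: the expected dimension in every degree. -/

set_option autoImplicit false

namespace Pool.Agent.TH105.QH

open Finset Pool.Agent.TH176.Nag Pool.Agent.TH603.Sur Pool.Agent.TH2.NU Pool.Agent.TH641.UM
  Pool.Agent.H932R3

theorem expDim_of_ends {n D : ℕ} {ι : Type} [Fintype ι] {v : ι → ℕ} {w : Fin n → ℕ}
    (hw : ms w = ms v) (h1 : (D + 2).choose 2 ≤ Pool.Agent.TH603.Sur.cond v)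
    (h2 : Pool.Agent.TH603.Sur.cond v < (D + 3).choose 2) (hE : Emp v (TZ D))
    (hS : Sur v (TZ (D + 1))) :
    ∃ F : MvPolynomial (Fin n × Fin 2) ℚ, F ≠ 0 ∧ ∀ {L : Type} [Field L] [CharZero L]
      (P : Fin n → Fin 2 → L), MvPolynomial.aeval (fun ij : Fin n × Fin 2 => P ij.1 ij.2) F ≠ 0 →
      ∀ e, ExpDim L w P e := by
  have hE' : Emp w (TZ D) := Emp_of_ms hw.ge hE
  have hS' : Sur w (TZ (D + 1)) := Sur_of_ms hw.symm hS
  have hcond : Pool.Agent.TH603.Sur.cond w = Pool.Agent.TH603.Sur.cond v := cond_of_ms hw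
  rw [← hcond] at h1 h2
  have hled : ∀ e : ℕ, (e + 2).choose 2 ≤ Pool.Agent.TH603.Sur.cond w → e ≤ D := by
    intro e he
    by_contra hcon
    push Not at hcon
    have : (D + 3).choose 2 ≤ (e + 2).choose 2 := Nat.choose_le_choose 2 (by omega)
    omega
  refine expDim_of_sign (w := w) (fun e he => hE'.mono (TZ_sub (hled e he))) (fun e he => ?_)
  rcases Nat.lt_or_ge D e with h | h
  · exact hS'.mono (TZ_sub h)
  · have h6 : (e + 2).choose 2 ≤ (D + 2).choose 2 := Nat.choose_le_choose 2 (by omega)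
    have h7 : Emp w (↑(Pool.Agent.TH387.SH.TF e) : Set (ℤ × ℤ)) := by
      rw [Pool.Agent.TH387.SH.coe_TF]
      exact hE'.mono (TZ_sub h)
    have h8 := Sur_of_Emp (w := w) 0 (T := Pool.Agent.TH387.SH.TF e)
      (by rw [Pool.Agent.TH387.SH.card_TF]; omega) (Emp_zero_iff.2 h7)
    rwa [Pool.Agent.TH387.SH.coe_TF] at h8

/-- **Two blocks**: the expected dimension in every degree. -/
theorem expDim_two_blocks {N b k D : ℕ} {x : Fin k → ℕ} (hN : 0 < N) (hx : NU x)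
    (h1 : (D + 2).choose 2 ≤ Pool.Agent.TH603.Sur.cond (W N b x))
    (h2 : Pool.Agent.TH603.Sur.cond (W N b x) < (D + 3).choose 2)
    (h3 : 4 * (b + 1) ≤ D) (h4 : D + 16 * k ≤ 4 * ∑ i, x i)
    (h5 : 4 * ∑ i, x i + 2 * k * (N + k + ∑ i, x i + 1) ≤ k * D ∨
      (4 * ∑ i, x i + 2 * k * (N + 5 * k + ∑ i, x i + 5) ≤ 5 * (k * D) ∧
        ∀ t, t = D ∨ t = D + 1 → ∃ K : ℕ, 2 ≤ K ∧ (t + 3) % (2 * K) ≤ K ∧ 2 * K * (b + 1) ≤ D ∧
          2 * K * (5 * k + ∑ i, x i + 4) ≤ k * D)) :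
    ∃ F : MvPolynomial (Fin (2 * N + 2 * N + k) × Fin 2) ℚ, F ≠ 0 ∧
      ∀ {L : Type} [Field L] [CharZero L] (P : Fin (2 * N + 2 * N + k) → Fin 2 → L),
      MvPolynomial.aeval (fun ij : Fin (2 * N + 2 * N + k) × Fin 2 => P ij.1 ij.2) F ≠ 0 →
      ∀ e, ExpDim L (W N b x) P e := by
  have e : Pool.Agent.TH603.Sur.cond (W N b x) = Pool.Agent.TH603.Sur.cond (V N b x) :=
    cond_of_ms (ms_W N b x)
  rw [e] at h1 h2
  have hk : 0 < k := by
    rcases Nat.eq_zero_or_pos k with rfl | h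
    · simp at h4
      omega
    · exact h
  have key : Emp (V N b x) (TZ D) ∧ Sur (V N b x) (TZ (D + 1)) := by
    rcases h5 with h5 | ⟨h5, h6⟩
    · exact crit hN hk hx h1 h2 h3 h4 h5
    · obtain ⟨K, a1, a2, a3, a4⟩ := h6 D (Or.inl rfl)
      obtain ⟨K', b1, b2, b3, b4⟩ := h6 (D + 1) (Or.inr rfl)
      exact crit3 hN hk hx h1 h2 a1 a2 a3 a4 b1 b2 b3 b4 h4 h5
  exact expDim_of_ends (ms_W N b x) h1 h2 key.1 key.2

end Pool.Agent.TH105.QH
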