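import Pool.Agent.TH105.QH.Low

/-! Two blocks of points of arbitrary ratio: the expected dimension in every degree. -/

set_option autoImplicit false

namespace Pool.Agent.TH105.QH

open Finset Pool.Agent.TH176.Nag Pool.Agent.TH603.Sur Pool.Agent.TH2.NU Pool.Agent.TH641.UM
  Pool.Agent.H932R3

theorem TZ_sub {a b : ℕ} (h : a ≤ b) : TZ a ⊆ TZ b := by
  rintro p ⟨h1, h2, h3⟩
  have : (a : ℤ) ≤ b := by exact_mod_cast h
  exact ⟨h1, h2, h3.trans this⟩

/-- **Two blocks**: the expected dimension in every degree. -/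
theorem expDim_V {N b k d n : ℕ} {x : Fin k → ℕ} {w : Fin n → ℕ} (hw : ms w = ms (V N b x))
    (hN : 0 < N) (hx : NU x)
    (h1 : (d + 2).choose 2 ≤ Pool.Agent.TH603.Sur.cond (V N b x))
    (h2 : Pool.Agent.TH603.Sur.cond (V N b x) < (d + 3).choose 2)
    (h3 : 4 * (b + 1) ≤ d) (h4 : d + 16 * k ≤ 4 * ∑ i, x i)
    (h5 : 4 * ∑ i, x i + 2 * k * (N + k + ∑ i, x i + 1) ≤ k * d) :
    ∃ F : MvPolynomial (Fin n × Fin 2) ℚ, F ≠ 0 ∧ ∀ {L : Type} [Field L] [CharZero L]
      (P : Fin n → Fin 2 → L), MvPolynomial.aeval (fun ij : Fin n × Fin 2 => P ij.1 ij.2) F ≠ 0 →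
      ∀ e, ExpDim L w P e := by
  have hk : 0 < k := by
    rcases Nat.eq_zero_or_pos k with rfl | h
    · simp at h4
      omega
    · exact h
  obtain ⟨hE, hS⟩ := crit hN hk hx h1 h2 h3 h4 h5
  have hE' : Emp w (TZ d) := Emp_of_ms hw.ge hE
  have hS' : Sur w (TZ (d + 1)) := Sur_of_ms hw.symm hS
  have hcond : Pool.Agent.TH603.Sur.cond w = Pool.Agent.TH603.Sur.cond (V N b x) := cond_of_ms hw
  rw [← hcond] at h1 h2
  have hled : ∀ e : ℕ, (e + 2).choose 2 ≤ Pool.Agent.TH603.Sur.cond w → e ≤ d := by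
    intro e he
    by_contra hcon
    push Not at hcon
    have : (d + 3).choose 2 ≤ (e + 2).choose 2 := Nat.choose_le_choose 2 (by omega)
    omega
  refine expDim_of_sign (w := w) (fun e he => hE'.mono (TZ_sub (hled e he))) (fun e he => ?_)
  rcases Nat.lt_or_ge d e with h | h
  · exact hS'.mono (TZ_sub h)
  · have h6 : (e + 2).choose 2 ≤ (d + 2).choose 2 := Nat.choose_le_choose 2 (by omega)
    have h7 : Emp w (↑(Pool.Agent.TH387.SH.TF e) : Set (ℤ × ℤ)) := by
      rw [Pool.Agent.TH387.SH.coe_TF]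
      exact hE'.mono (TZ_sub h)
    have h8 := Sur_of_Emp (w := w) 0 (T := Pool.Agent.TH387.SH.TF e)
      (by rw [Pool.Agent.TH387.SH.card_TF]; omega) (Emp_zero_iff.2 h7)
    rwa [Pool.Agent.TH387.SH.coe_TF] at h8

/-- the vector of the statement -/
def W (N b : ℕ) {k : ℕ} (x : Fin k → ℕ) : Fin (2 * N + 2 * N + k) → ℕ :=
  Fin.append (Fin.append (fun _ : Fin (2 * N) => b / 2) (fun _ : Fin (2 * N) => (b + 1) / 2)) x

theorem ms_W (N b : ℕ) {k : ℕ} (x : Fin k → ℕ) : ms (W N b x) = ms (V N b x) := by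
  unfold ms W V
  rw [Fin.sum_univ_add, Fin.sum_univ_add, Fintype.sum_sum_type, Fintype.sum_prod_type]
  simp only [Fin.append_left, Fin.append_right, Sum.elim_inl, Sum.elim_inr, Fintype.sum_prod_type,
    Fin.sum_univ_two, qv, Fin.val_zero, Fin.val_one, add_zero, sum_const, card_univ,
    Fintype.card_fin]
  congr 1
  rw [nsmul_add, smul_smul, smul_smul, mul_comm]

end Pool.Agent.TH105.QH
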