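import Pool.Agent.TH105.QH.Ends

/-! Two blocks of points: the independent end, general `K`. -/

set_option autoImplicit false

namespace Pool.Agent.TH105.QH

open Finset Pool.Agent.TH176.Nag Pool.Agent.TH603.Sur Pool.Agent.TH105.QH.Old

/-- **the independent end** -/
theorem Sur_endK {N b k e K : ℕ} {x : Fin k → ℕ} (hK : 2 ≤ K) (hN : 0 < N) (hk : 0 < k) (hx : NU x)
    (hmod : (e + 3) % (2 * K) ≤ K) (h1 : 2 * K * (b + 1) ≤ e + 2)
    (h5 : e + 3 ≤ 2 * K * (N * (b + 1)))
    (h2 : e + 3 ≤ 2 * K * (k + ∑ i, x i)) (h4 : 2 * K * (k + ∑ i, x i) ≤ k * (e + 2))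
    (h : N * ((b : ℝ) + 1) ^ 2 + (k + ∑ i, (x i : ℝ)) ^ 2 / k < ((e : ℝ) + 11 / 4) ^ 2) :
    Sur (Sum.elim (fun _ : Fin N => b) x) (TZ e) := by
  have hN' : (0 : ℝ) < N := by exact_mod_cast hN
  have hk' : (0 : ℝ) < k := by exact_mod_cast hk
  have hKR : (2 : ℝ) ≤ K := by exact_mod_cast hK
  have hR1 : (1 : ℝ) / (2 * K) ≤ 1 / 4 := by
    rw [div_le_div_iff₀ (by positivity) (by norm_num)]
    linarith
  have hR0 : (0 : ℝ) < 1 / (2 * K) := by positivity
  obtain ⟨a, ha⟩ := hx
  have e2 : ∀ i, max (x i) a = x i := fun i => max_eq_left (by rcases ha i with h | h <;> omega)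
  have hB : Below (vv N b x) e := by
    refine ⟨K, 2, AA N k, ![b, a], e, hK, by nlinarith, AA_disj N k, ?_, ?_, le_rfl, hmod, ?_, ?_⟩
    · intro p _
      obtain ⟨j, rfl⟩ := finSumFinEquiv.surjective p
      rcases j with j | j
      · exact ⟨0, by rw [AA_zero, mem_map]; exact ⟨j, mem_univ _, by simp⟩⟩
      · exact ⟨1, by rw [AA_one, mem_map]; exact ⟨j, mem_univ _, by simp⟩⟩
    · rw [Fin.forall_fin_two]
      constructor
      · intro p hp
        rw [AA_zero, mem_map] at hp
        obtain ⟨j, -, rfl⟩ := hp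
        simp [vv]
      · intro p hp
        rw [AA_one, mem_map] at hp
        obtain ⟨j, -, rfl⟩ := hp
        simp only [vv, Fin.natAddEmb_apply, Fin.append_right, Matrix.cons_val_one,
          Matrix.cons_val_fin_one]
        rcases ha j with h | h <;> omega
    · rw [Fin.forall_fin_two]
      simp only [Matrix.cons_val_zero, Matrix.cons_val_one, Matrix.cons_val_fin_one]
      constructor
      · rw [sum_zero N b x (fun c => ((max c b : ℕ) : ℝ)), max_self, card_AA_zero, nsmul_eq_mul]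
        have h1' : 2 * K * ((b : ℝ) + 1) ≤ e + 2 := by exact_mod_cast h1
        have h6 : N * (2 * K * ((b : ℝ) + 1)) ≤ N * (e + 2) := mul_le_mul_of_nonneg_left h1' hN'.le
        have h7 : N * ((e : ℝ) + 2) < N * (e + 3 - 1 / (2 * K)) :=
          mul_lt_mul_of_pos_left (by linarith) hN'
        calc 2 * (K : ℝ) * (N + N * b) = N * (2 * K * ((b : ℝ) + 1)) := by ring
          _ ≤ N * (e + 2) := h6
          _ < _ := h7
      · rw [sum_one N b x (fun c => ((max c a : ℕ) : ℝ)), sum_congr rfl fun i _ => by rw [e2 i],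
          card_AA_one]
        have h4' : 2 * K * (k + ∑ i, (x i : ℝ)) ≤ k * (e + 2) := by exact_mod_cast h4
        have h7 : k * ((e : ℝ) + 2) < k * (e + 3 - 1 / (2 * K)) :=
          mul_lt_mul_of_pos_left (by linarith) hk'
        exact lt_of_le_of_lt h4' h7
    · rw [Fin.sum_univ_two]
      simp only [Matrix.cons_val_zero, Matrix.cons_val_one, Matrix.cons_val_fin_one]
      rw [sum_zero N b x (fun c => ((max c b : ℕ) : ℝ)), max_self, card_AA_zero, nsmul_eq_mul,
        sum_one N b x (fun c => ((max c a : ℕ) : ℝ)), sum_congr rfl fun i _ => by rw [e2 i],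
          card_AA_one]
      have h5' : (e : ℝ) + 3 ≤ 2 * K * (N * (b + 1)) := by exact_mod_cast h5
      have h2' : (e : ℝ) + 3 ≤ 2 * K * (k + ∑ i, (x i : ℝ)) := by exact_mod_cast h2
      have m1 : max (((e : ℝ) + 3 - 1 / (2 * (K : ℝ))) / (2 * (K : ℝ)))
          ((N : ℝ) + N * (b : ℝ)) = N * (b + 1) := by
        rw [max_eq_right]
        · ring
        · rw [div_le_iff₀ (by positivity)]
          calc (e : ℝ) + 3 - 1 / (2 * K) ≤ 2 * K * (N * (b + 1)) := by linarith
            _ = (N + N * (b : ℝ)) * (2 * K) := by ring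
      have m2 : max (((e : ℝ) + 3 - 1 / (2 * (K : ℝ))) / (2 * (K : ℝ)))
          ((k : ℝ) + ∑ i, (x i : ℝ)) = k + ∑ i, (x i : ℝ) := by
        rw [max_eq_right]
        rw [div_le_iff₀ (by positivity)]
        calc (e : ℝ) + 3 - 1 / (2 * K) ≤ 2 * K * (k + ∑ i, (x i : ℝ)) := by linarith
          _ = (k + ∑ i, (x i : ℝ)) * (2 * K) := by ring
      rw [m1, m2]
      have e3 : ((N : ℝ) * (b + 1)) ^ 2 / N = N * ((b : ℝ) + 1) ^ 2 := by
        field_simp
      rw [e3]
      refine lt_of_lt_of_le h (pow_le_pow_left₀ (by positivity) ?_ 2)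
      linarith
  refine Sur_emb (v := Sum.elim (fun _ : Fin N => b) x) finSumFinEquiv.symm
    finSumFinEquiv.symm.injective (fun i => ?_) (fun j _ => ⟨finSumFinEquiv j, by simp⟩) hB.sur
  obtain ⟨j, rfl⟩ := finSumFinEquiv.surjective i
  rw [Equiv.symm_apply_apply]
  rcases j with j | j
  · simp [vv]
  · simp [vv]

end Pool.Agent.TH105.QH
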