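import Pool.Agent.TH105.QH.All
import Pool.Agent.TH105.QH.EndsK

/-! Two blocks of points: the wider range. -/

set_option autoImplicit false

namespace Pool.Agent.TH105.QH

open Finset Pool.Agent.TH176.Nag Pool.Agent.TH603.Sur Pool.Agent.TH2.NU

theorem core3 {N b k d K : ℕ} {x : Fin k → ℕ} (hN : 0 < N) (hk : 0 < k) (hx : NU x)
    (h1 : 4 * (b + 1) ≤ d) (h2 : d < 4 * ∑ i, x i) (h3 : 4 * (k + ∑ i, x i) ≤ k * d)
    (h4 : 2 * ∑ i, x i ≤ 5 * d)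
    (hlow : 4 * d ^ 2 + 4 * ∑ i, x i + k < 8 * Pool.Agent.TH603.Sur.cond (V N b x))
    (hup : 4 * Pool.Agent.TH603.Sur.cond (V N b x) + 2 * (N + k + ∑ i, x i) ≤
        2 * d ^ 2 + 11 * d + 15) (hK : 2 ≤ K) (hmod : (d + 3) % (2 * K) ≤ K)
    (hKb : 2 * K * (b + 1) ≤ d + 2) (hKx : 2 * K * (k + ∑ i, x i) ≤ k * (d + 2)) :
    ((d + 2).choose 2 ≤ Pool.Agent.TH603.Sur.cond (V N b x) → Emp (V N b x) (TZ d)) ∧
    (Pool.Agent.TH603.Sur.cond (V N b x) ≤ (d + 2).choose 2 → Sur (V N b x) (TZ d)) := by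
  obtain ⟨c, hc⟩ : ∃ c, c = Pool.Agent.TH603.Sur.cond (V N b x) := ⟨_, rfl⟩
  obtain ⟨S, hS⟩ : ∃ S : ℝ, S = ∑ i, (x i : ℝ) := ⟨_, rfl⟩
  obtain ⟨Q, hQ⟩ : ∃ Q : ℝ, Q = ∑ i, (x i : ℝ) ^ 2 := ⟨_, rfl⟩
  have b1 := cond_V_le N b x
  have b2 := le_cond_V N b x
  have q1 := hx.sq_le
  have q2 := sum_sq_le x
  have hSN : ((∑ i, x i : ℕ) : ℝ) = S := by rw [hS]; push_cast; rfl
  rw [← hc, ← hS, ← hQ] at b1 b2
  rw [← hS, ← hQ] at q1 q2
  have hkR : (0 : ℝ) < k := by exact_mod_cast hk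
  have hNR : (0 : ℝ) < N := by exact_mod_cast hN
  have hS0 : 0 ≤ S := by rw [hS]; exact sum_nonneg fun _ _ => Nat.cast_nonneg _
  have r1 : 4 * ((b : ℝ) + 1) ≤ d := by exact_mod_cast h1
  have r2 : (d : ℝ) < 4 * S := by rw [← hSN]; exact_mod_cast h2
  have r3 : 4 * (k + S) ≤ k * d := by rw [← hSN]; exact_mod_cast h3
  have r4 : 2 * S ≤ 5 * d := by rw [← hSN]; exact_mod_cast h4
  have r5 : 4 * (d : ℝ) ^ 2 + 4 * S + k < 8 * c := by rw [← hSN, hc]; exact_mod_cast hlow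
  have hb0 : (0 : ℝ) ≤ b := Nat.cast_nonneg b
  have hd0 : (0 : ℝ) < d := by linarith
  -- squares
  have s1 : Q ≤ S ^ 2 / k + k / 4 := by
    rw [← sub_le_iff_le_add, le_div_iff₀ hkR]
    nlinarith
  have s2 : S ^ 2 / k ≤ Q := by
    rw [div_le_iff₀ hkR]
    linarith
  have s3 : S ^ 2 / k ≤ 5 * d ^ 2 / 8 := by
    rw [div_le_iff₀ hkR]
    have h6 : 8 * S * S ≤ (2 * S) * (k * d) := by nlinarith
    have h7 : (2 * S) * (k * d) ≤ (5 * d) * (k * d) := mul_le_mul_of_nonneg_right r4 (by positivity)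
    nlinarith
  have g1 : (d : ℝ) ^ 2 < N * ((b : ℝ) + 1) ^ 2 + S ^ 2 / k := by
    linarith
  have g2 : (5 / 4 : ℝ) * d < N * ((b : ℝ) + 1) := by
    by_contra hcon
    push Not at hcon
    have g3 : N * ((b : ℝ) + 1) ^ 2 ≤ 5 / 4 * d * (d / 4) := by
      have e : N * ((b : ℝ) + 1) ^ 2 = (N * ((b : ℝ) + 1)) * (b + 1) := by ring
      rw [e]
      exact mul_le_mul hcon (by linarith) (by linarith) (by linarith)
    nlinarith
  have hE : Emp (Sum.elim (fun _ : Fin N => b + 1) x) (TZ d) := by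
    refine Emp_end hk ?_ h2 h1 (by omega) ?_
    · have : (d : ℝ) < 4 * (N * ((b : ℝ) + 1)) := by linarith
      exact_mod_cast this
    · rw [← hS]
      push_cast
      exact g1
  have g3 : N * ((b : ℝ) + 1) ^ 2 + (k + S) ^ 2 / k ≤ 2 * c + N + k + S := by
    have e : (k + S) ^ 2 / k = k + 2 * S + S ^ 2 / k := by
      field_simp
      ring
    rw [e]
    linarith
  have hSu : Sur (Sum.elim (fun _ : Fin N => b) x) (TZ d) := by
    have hup' : 4 * c + 2 * (N + k + S) ≤ 2 * (d : ℝ) ^ 2 + 11 * d + 15 := by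
      rw [← hSN, hc]; exact_mod_cast hup
    have hd1 : (1 : ℝ) ≤ d := by
      have : 0 < d := by exact_mod_cast hd0
      exact_mod_cast this
    have h5 : (d : ℝ) + 3 ≤ 4 * (N * ((b : ℝ) + 1)) := by linarith
    have h5' : d + 3 ≤ 4 * (N * (b + 1)) := by exact_mod_cast h5
    have hK1 : 4 * (N * (b + 1)) ≤ 2 * K * (N * (b + 1)) := Nat.mul_le_mul_right _ (by omega)
    have hK2 : 4 * (k + ∑ i, x i) ≤ 2 * K * (k + ∑ i, x i) := Nat.mul_le_mul_right _ (by omega)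
    refine Sur_endK hK hN hk hx hmod hKb (h5'.trans hK1) (le_trans (by omega) hK2) hKx ?_
    rw [← hS]
    nlinarith
  have hD := doublingB (N := N) (b := b) (e := x) hN (S := Pool.Agent.TH387.SH.TF d)
    (fun u hu => by
      have h1 : u ∈ TZ d := by rw [← Pool.Agent.TH387.SH.coe_TF]; exact mem_coe.2 hu
      exact ⟨h1.1, h1.2.1⟩)
    (by rw [Pool.Agent.TH387.SH.coe_TF]; exact hSu) (by rw [Pool.Agent.TH387.SH.coe_TF]; exact hE)
  rw [Pool.Agent.TH387.SH.coe_TF, Pool.Agent.TH387.SH.card_TF] at hD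
  exact hD

end Pool.Agent.TH105.QH
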