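import Pool.Agent.TH105.QH.Ends
import Pool.Agent.TH641.UM.Ones
import Pool.Agent.TH387.SH.Tr
import Pool.Agent.TH2.NU.Dbl
import Pool.Agent.TH2.NU.Anti

/-! Two blocks of points: the critical degrees. -/

set_option autoImplicit false

namespace Pool.Agent.TH105.QH

open Finset Pool.Agent.TH176.Nag Pool.Agent.TH603.Sur Pool.Agent.TH2.NU

/-- `N` clusters with `2 b` as sum of the four multiplicities, and `x` -/
def V (N b : ℕ) {k : ℕ} (x : Fin k → ℕ) : (Fin N × (Fin 2 × Fin 2)) ⊕ Fin k → ℕ :=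
  Sum.elim (fun p => qv b p.2) x

theorem cast_choose (a : ℕ) : 2 * (((a + 1).choose 2 : ℕ) : ℝ) = (a : ℝ) ^ 2 + a := by
  rw [Nat.cast_choose_two]
  push_cast
  ring

theorem cond_x {k : ℕ} (x : Fin k → ℕ) :
    2 * (Pool.Agent.TH603.Sur.cond x : ℝ) = ∑ i, (x i : ℝ) ^ 2 + ∑ i, (x i : ℝ) := by
  unfold Pool.Agent.TH603.Sur.cond
  push_cast
  rw [← sum_add_distrib, mul_sum]
  exact sum_congr rfl fun i _ => cast_choose _

theorem cond_V (N b : ℕ) {k : ℕ} (x : Fin k → ℕ) :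
    Pool.Agent.TH603.Sur.cond (V N b x) =
      N * ((b + 1).choose 2 + (b + 1) / 2) + Pool.Agent.TH603.Sur.cond x := by
  unfold V
  rw [cond_sum, sum_qv]

theorem half_cast (b : ℕ) : (b : ℝ) ≤ 2 * (((b + 1) / 2 : ℕ) : ℝ) ∧
    2 * (((b + 1) / 2 : ℕ) : ℝ) ≤ b + 1 := by
  have h1 : b ≤ 2 * ((b + 1) / 2) := by omega
  have h2 : 2 * ((b + 1) / 2) ≤ b + 1 := by omega
  exact ⟨by exact_mod_cast h1, by exact_mod_cast h2⟩

theorem cond_V_le (N b : ℕ) {k : ℕ} (x : Fin k → ℕ) :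
    2 * (Pool.Agent.TH603.Sur.cond (V N b x) : ℝ) ≤
      N * ((b : ℝ) + 1) ^ 2 + ∑ i, (x i : ℝ) ^ 2 + ∑ i, (x i : ℝ) := by
  rw [cond_V]
  push_cast
  have h1 := cond_x x
  have h2 := cast_choose b
  have h3 := (half_cast b).2
  have hN : (0 : ℝ) ≤ N := Nat.cast_nonneg N
  nlinarith

theorem le_cond_V (N b : ℕ) {k : ℕ} (x : Fin k → ℕ) :
    N * ((b : ℝ) + 1) ^ 2 + ∑ i, (x i : ℝ) ^ 2 + ∑ i, (x i : ℝ) ≤
      2 * (Pool.Agent.TH603.Sur.cond (V N b x) : ℝ) + N := by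
  rw [cond_V]
  push_cast
  have h1 := cond_x x
  have h2 := cast_choose b
  have h3 := (half_cast b).1
  have hN : (0 : ℝ) ≤ N := Nat.cast_nonneg N
  nlinarith

theorem core {N b k d : ℕ} {x : Fin k → ℕ} (hN : 0 < N) (hk : 0 < k) (hx : NU x)
    (h1 : 4 * (b + 1) ≤ d) (h2 : d < 4 * ∑ i, x i) (h3 : 4 * (k + ∑ i, x i) ≤ k * d)
    (h4 : 2 * (N + k + ∑ i, x i) ≤ d)
    (hlow : d * (d + 1) ≤ 2 * Pool.Agent.TH603.Sur.cond (V N b x))
    (hup : 4 * Pool.Agent.TH603.Sur.cond (V N b x) + 2 * (N + k + ∑ i, x i) ≤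
        2 * d ^ 2 + 7 * d + 6 ∨
      (d % 4 ≠ 0 ∧ 4 * Pool.Agent.TH603.Sur.cond (V N b x) + 2 * (N + k + ∑ i, x i) ≤
        2 * d ^ 2 + 11 * d + 15)) :
    ((d + 2).choose 2 ≤ Pool.Agent.TH603.Sur.cond (V N b x) → Emp (V N b x) (TZ d)) ∧
    (Pool.Agent.TH603.Sur.cond (V N b x) ≤ (d + 2).choose 2 → Sur (V N b x) (TZ d)) := by
  obtain ⟨c, hc⟩ : ∃ c, c = Pool.Agent.TH603.Sur.cond (V N b x) := ⟨_, rfl⟩
  obtain ⟨S, hS⟩ : ∃ S : ℝ, S = ∑ i, (x i : ℝ) := ⟨_, rfl⟩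
  obtain ⟨Q, hQ⟩ : ∃ Q : ℝ, Q = ∑ i, (x i : ℝ) ^ 2 := ⟨_, rfl⟩
  have b1 := cond_V_le N b x
  have b2 := le_cond_V N b x
  have q1 := hx.sq_le
  have q2 := sum_sq_le x
  have hSN : ((∑ i, x i : ℕ) : ℝ) = S := by rw [hS]; push_cast; rfl
  rw [← hc, ← hS, ← hQ] at b1 b2
  rw [← hS, ← hQ] at q1 q2
  have hkR : (0 : ℝ) < k := by exact_mod_cast hk
  have hNR : (0 : ℝ) < N := by exact_mod_cast hN
  have hS0 : 0 ≤ S := by rw [hS]; exact sum_nonneg fun _ _ => Nat.cast_nonneg _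
  have r1 : 4 * ((b : ℝ) + 1) ≤ d := by exact_mod_cast h1
  have r2 : (d : ℝ) < 4 * S := by rw [← hSN]; exact_mod_cast h2
  have r3 : 4 * (k + S) ≤ k * d := by rw [← hSN]; exact_mod_cast h3
  have r4 : 2 * (N + k + S) ≤ d := by rw [← hSN]; exact_mod_cast h4
  have r5 : (d : ℝ) * (d + 1) ≤ 2 * c := by rw [hc]; exact_mod_cast hlow
  have hb0 : (0 : ℝ) ≤ b := Nat.cast_nonneg b
  have hd0 : (0 : ℝ) < d := by linarith
  -- squares
  have s1 : Q ≤ S ^ 2 / k + k / 4 := by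
    rw [← sub_le_iff_le_add, le_div_iff₀ hkR]
    nlinarith
  have s2 : S ^ 2 / k ≤ Q := by
    rw [div_le_iff₀ hkR]
    linarith
  have s3 : S ^ 2 / k ≤ d ^ 2 / 8 := by
    rw [div_le_iff₀ hkR]
    have : 8 * S * S ≤ (2 * S) * (k * d) := by nlinarith
    have : (2 * S) * (k * d) ≤ d * (k * d) := mul_le_mul_of_nonneg_right (by linarith) (by positivity)
    nlinarith
  have g1 : (d : ℝ) ^ 2 + d / 2 < N * ((b : ℝ) + 1) ^ 2 + S ^ 2 / k := by
    nlinarith
  have g2 : (3 : ℝ) * d < N * ((b : ℝ) + 1) := by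
    by_contra hcon
    push Not at hcon
    have g3 : N * ((b : ℝ) + 1) ^ 2 ≤ 3 * d * (d / 4) := by
      have e : N * ((b : ℝ) + 1) ^ 2 = (N * ((b : ℝ) + 1)) * (b + 1) := by ring
      rw [e]
      exact mul_le_mul hcon (by linarith) (by linarith) (by linarith)
    nlinarith
  have hE : Emp (Sum.elim (fun _ : Fin N => b + 1) x) (TZ d) := by
    refine Emp_end hk ?_ h2 h1 (by omega) ?_
    · have : (d : ℝ) < 4 * (N * ((b : ℝ) + 1)) := by linarith
      exact_mod_cast this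
    · rw [← hS]
      push_cast
      linarith
  have g3 : N * ((b : ℝ) + 1) ^ 2 + (k + S) ^ 2 / k ≤ 2 * c + N + k + S := by
    have e : (k + S) ^ 2 / k = k + 2 * S + S ^ 2 / k := by
      field_simp
      ring
    rw [e]
    linarith
  have hSu : Sur (Sum.elim (fun _ : Fin N => b) x) (TZ d) := by
    by_cases hd : d % 4 = 0
    · have hup' : 4 * c + 2 * (N + k + S) ≤ 2 * (d : ℝ) ^ 2 + 7 * d + 6 := by
        rcases hup with h | h
        · rw [← hSN, hc]; exact_mod_cast h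
        · exact absurd hd h.1
      have hd1 : 1 ≤ d := by
        have : (0 : ℝ) < d := hd0
        have : 0 < d := by exact_mod_cast this
        omega
      obtain ⟨e, rfl⟩ := Nat.exists_eq_add_of_le' hd1
      have hek : k * (e + 1) ≤ k * (e + 2) := Nat.mul_le_mul_left _ (by omega)
      have h5 : (e : ℝ) + 3 ≤ 4 * (N * ((b : ℝ) + 1)) := by
        push_cast at g2 hd0
        have : (0 : ℝ) ≤ e := Nat.cast_nonneg e
        linarith
      refine Sur_end hN hk hx (Nat.le_succ e) (by omega) (by omega) (by exact_mod_cast h5) (by omega)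
        (by omega) ?_
      rw [← hS]
      push_cast at hup'
      nlinarith
    · have hup' : 4 * c + 2 * (N + k + S) ≤ 2 * (d : ℝ) ^ 2 + 11 * d + 15 := by
        rcases hup with h | h
        · have : 4 * c + 2 * (N + k + S) ≤ 2 * (d : ℝ) ^ 2 + 7 * d + 6 := by
            rw [← hSN, hc]; exact_mod_cast h
          linarith
        · rw [← hSN, hc]; exact_mod_cast h.2
      have hek : k * d ≤ k * (d + 2) := Nat.mul_le_mul_left _ (by omega)
      have h5 : (d : ℝ) + 3 ≤ 4 * (N * ((b : ℝ) + 1)) := by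
        have : (1 : ℝ) ≤ d := by
          have : (0 : ℝ) < d := hd0
          have : 0 < d := by exact_mod_cast this
          exact_mod_cast this
        linarith
      refine Sur_end hN hk hx le_rfl (by omega) (by omega) (by exact_mod_cast h5) (by omega)
        (by omega) ?_
      rw [← hS]
      nlinarith
  have hD := doublingB (N := N) (b := b) (e := x) hN (S := Pool.Agent.TH387.SH.TF d)
    (fun u hu => by
      have h1 : u ∈ TZ d := by rw [← Pool.Agent.TH387.SH.coe_TF]; exact mem_coe.2 hu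
      exact ⟨h1.1, h1.2.1⟩)
    (by rw [Pool.Agent.TH387.SH.coe_TF]; exact hSu) (by rw [Pool.Agent.TH387.SH.coe_TF]; exact hE)
  rw [Pool.Agent.TH387.SH.coe_TF, Pool.Agent.TH387.SH.card_TF] at hD
  exact hD

end Pool.Agent.TH105.QH
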