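import Pool.Agent.TH105.QH.Old.Main

/-! Two blocks of points: both ends. -/

set_option autoImplicit false

namespace Pool.Agent.TH105.QH

open Finset Pool.Agent.TH176.Nag Pool.Agent.TH603.Sur Pool.Agent.TH105.QH.Old

/-- the values are two consecutive numbers -/
def NU {k : ℕ} (x : Fin k → ℕ) : Prop := ∃ a : ℕ, ∀ i, x i = a ∨ x i = a + 1

theorem NU.sq_le {k : ℕ} {x : Fin k → ℕ} (h : NU x) :
    4 * k * ∑ i, (x i : ℝ) ^ 2 ≤ 4 * (∑ i, (x i : ℝ)) ^ 2 + k ^ 2 := by
  obtain ⟨a, ha⟩ := h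
  have e : ∑ i, (x i : ℝ) ^ 2 = (2 * a + 1) * ∑ i, (x i : ℝ) - k * (a * (a + 1)) := by
    have e1 : ∀ i, (x i : ℝ) ^ 2 = (2 * a + 1) * (x i : ℝ) - a * (a + 1) := by
      intro i
      rcases ha i with h | h
      · rw [h]; ring
      · rw [h]; push_cast; ring
    rw [sum_congr rfl fun i _ => e1 i, sum_sub_distrib, ← mul_sum, sum_const, card_univ,
      Fintype.card_fin, nsmul_eq_mul]
  rw [e]
  nlinarith [sq_nonneg (2 * ∑ i, (x i : ℝ) - k * (2 * a + 1))]

theorem sum_sq_le {k : ℕ} (x : Fin k → ℕ) : (∑ i, (x i : ℝ)) ^ 2 ≤ k * ∑ i, (x i : ℝ) ^ 2 := by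
  have := sq_sum_le_card_mul_sum_sq (s := (univ : Finset (Fin k))) (f := fun i => (x i : ℝ))
  rwa [card_univ, Fintype.card_fin] at this

/-- the two blocks -/
def AA (N k : ℕ) : Fin 2 → Finset (Fin (N + k)) :=
  ![univ.map (Fin.castAddEmb k), univ.map (Fin.natAddEmb N)]

theorem AA_zero (N k : ℕ) : AA N k 0 = univ.map (Fin.castAddEmb k) := rfl
theorem AA_one (N k : ℕ) : AA N k 1 = univ.map (Fin.natAddEmb N) := rfl

theorem AA_disj (N k : ℕ) : ∀ i j, i ≠ j → Disjoint (AA N k i) (AA N k j) := by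
  have h : Disjoint (AA N k 0) (AA N k 1) := by
    rw [Finset.disjoint_left]
    intro p hp hq
    rw [AA_zero, mem_map] at hp
    rw [AA_one, mem_map] at hq
    obtain ⟨a, -, ha⟩ := hp
    obtain ⟨b, -, hb⟩ := hq
    have h1 := congrArg Fin.val (ha.trans hb.symm)
    simp only [Fin.castAddEmb_apply, Fin.natAddEmb_apply, Fin.val_castAdd, Fin.val_natAdd] at h1
    have := a.2
    omega
  rw [Fin.forall_fin_two]
  constructor
  · rw [Fin.forall_fin_two]
    exact ⟨fun h0 => absurd rfl h0, fun _ => h⟩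
  · rw [Fin.forall_fin_two]
    exact ⟨fun _ => h.symm, fun h0 => absurd rfl h0⟩

theorem card_AA_zero (N k : ℕ) : (AA N k 0).card = N := by
  rw [AA_zero, card_map, card_univ, Fintype.card_fin]
theorem card_AA_one (N k : ℕ) : (AA N k 1).card = k := by
  rw [AA_one, card_map, card_univ, Fintype.card_fin]

/-- the vector with `N` coordinates `b` and then `x` -/
def vv (N b : ℕ) {k : ℕ} (x : Fin k → ℕ) : Fin (N + k) → ℕ := Fin.append (fun _ => b) x

theorem sum_zero {M : Type*} [AddCommMonoid M] (N b : ℕ) {k : ℕ} (x : Fin k → ℕ) (f : ℕ → M) :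
    ∑ p ∈ AA N k 0, f (vv N b x p) = N • f b := by
  rw [AA_zero, sum_map]
  simp only [Fin.castAddEmb_apply, vv, Fin.append_left, sum_const, card_univ, Fintype.card_fin]

theorem sum_one {M : Type*} [AddCommMonoid M] (N b : ℕ) {k : ℕ} (x : Fin k → ℕ) (f : ℕ → M) :
    ∑ p ∈ AA N k 1, f (vv N b x p) = ∑ i, f (x i) := by
  rw [AA_one, sum_map]
  simp only [Fin.natAddEmb_apply, vv, Fin.append_right]

/-- **the empty end** -/
theorem Emp_end {N b k d : ℕ} {x : Fin k → ℕ} (hk : 0 < k) (h1 : d < 4 * (N * b))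
    (h2 : d < 4 * ∑ i, x i) (h3 : 4 * b ≤ d) (h4 : 4 * ∑ i, x i ≤ k * d)
    (h : (d : ℝ) ^ 2 < N * (b : ℝ) ^ 2 + (∑ i, (x i : ℝ)) ^ 2 / k) :
    Emp (Sum.elim (fun _ : Fin N => b) x) (TZ d) := by
  have hN : (0 : ℝ) < N := by
    have : 0 < N := Nat.pos_of_ne_zero (by rintro rfl; omega)
    exact_mod_cast this
  have hk' : (0 : ℝ) < k := by exact_mod_cast hk
  have hA : Above (vv N b x) d := by
    refine ⟨2, 2, AA N k, le_rfl, by norm_num, AA_disj N k, ?_, ?_⟩
    · rw [Fin.forall_fin_two]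
      constructor
      · rw [sum_zero N b x (fun a => a), smul_eq_mul]
        omega
      · rw [sum_one N b x (fun a => a)]
        omega
    · rw [Fin.sum_univ_two, sum_zero N b x (fun a => (a : ℝ)), sum_one N b x (fun a => (a : ℝ)),
        card_AA_zero, card_AA_one, nsmul_eq_mul]
      have h3' : 4 * (b : ℝ) ≤ d := by exact_mod_cast h3
      have h4' : 4 * ∑ i, (x i : ℝ) ≤ k * d := by exact_mod_cast h4
      have hS : 0 ≤ ∑ i, (x i : ℝ) := sum_nonneg fun _ _ => Nat.cast_nonneg _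
      have e1 : min (((N : ℝ) * b) ^ 2 / N) ((N : ℝ) * b * d / (2 * (2 : ℕ))) = N * (b : ℝ) ^ 2 := by
        have e2 : ((N : ℝ) * b) ^ 2 / N = N * (b : ℝ) ^ 2 := by
          field_simp
        rw [e2, min_eq_left]
        rw [le_div_iff₀ (by norm_num)]
        have hb0 : (0 : ℝ) ≤ N * b := by positivity
        push_cast
        nlinarith
      have e3 : min ((∑ i, (x i : ℝ)) ^ 2 / k) ((∑ i, (x i : ℝ)) * d / (2 * (2 : ℕ))) =
          (∑ i, (x i : ℝ)) ^ 2 / k := by
        rw [min_eq_left]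
        rw [div_le_div_iff₀ hk' (by norm_num)]
        push_cast
        nlinarith
      rw [e1, e3]
      exact h
  refine Emp_emb (v := Sum.elim (fun _ : Fin N => b) x) finSumFinEquiv.symm
    finSumFinEquiv.symm.injective (fun i => ?_) hA.emp
  obtain ⟨j, rfl⟩ := finSumFinEquiv.surjective i
  rw [Equiv.symm_apply_apply]
  rcases j with j | j
  · simp [vv]
  · simp [vv]

/-- **the independent end** -/
theorem Sur_end {N b k d e : ℕ} {x : Fin k → ℕ} (hN : 0 < N) (hk : 0 < k) (hx : NU x) (he : e ≤ d)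
    (hmod : (e + 3) % 4 ≤ 2) (h1 : 4 * (b + 1) ≤ e + 2) (h5 : e + 3 ≤ 4 * (N * (b + 1)))
    (h2 : e + 3 ≤ 4 * (k + ∑ i, x i)) (h4 : 4 * (k + ∑ i, x i) ≤ k * (e + 2))
    (h : N * ((b : ℝ) + 1) ^ 2 + (k + ∑ i, (x i : ℝ)) ^ 2 / k < ((e : ℝ) + 11 / 4) ^ 2) :
    Sur (Sum.elim (fun _ : Fin N => b) x) (TZ d) := by
  have hN' : (0 : ℝ) < N := by exact_mod_cast hN
  have hk' : (0 : ℝ) < k := by exact_mod_cast hk
  obtain ⟨a, ha⟩ := hx
  have e2 : ∀ i, max (x i) a = x i := fun i => max_eq_left (by rcases ha i with h | h <;> omega)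
  have hB : Below (vv N b x) d := by
    refine ⟨2, 2, AA N k, ![b, a], e, le_rfl, by norm_num, AA_disj N k, ?_, ?_, he, hmod, ?_, ?_⟩
    · intro p _
      obtain ⟨j, rfl⟩ := finSumFinEquiv.surjective p
      rcases j with j | j
      · exact ⟨0, by rw [AA_zero, mem_map]; exact ⟨j, mem_univ _, by simp⟩⟩
      · exact ⟨1, by rw [AA_one, mem_map]; exact ⟨j, mem_univ _, by simp⟩⟩
    · rw [Fin.forall_fin_two]
      constructor
      · intro p hp
        rw [AA_zero, mem_map] at hp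
        obtain ⟨j, -, rfl⟩ := hp
        simp [vv]
      · intro p hp
        rw [AA_one, mem_map] at hp
        obtain ⟨j, -, rfl⟩ := hp
        simp only [vv, Fin.natAddEmb_apply, Fin.append_right, Matrix.cons_val_one,
          Matrix.cons_val_fin_one]
        rcases ha j with h | h <;> omega
    · rw [Fin.forall_fin_two]
      simp only [Matrix.cons_val_zero, Matrix.cons_val_one, Matrix.cons_val_fin_one]
      constructor
      · rw [sum_zero N b x (fun c => ((max c b : ℕ) : ℝ)), max_self, card_AA_zero, nsmul_eq_mul]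
        have h1' : 4 * ((b : ℝ) + 1) ≤ e + 2 := by exact_mod_cast h1
        push_cast
        nlinarith
      · rw [sum_one N b x (fun c => ((max c a : ℕ) : ℝ)), sum_congr rfl fun i _ => by rw [e2 i],
          card_AA_one]
        have h4' : 4 * (k + ∑ i, (x i : ℝ)) ≤ k * (e + 2) := by exact_mod_cast h4
        push_cast
        nlinarith
    · rw [Fin.sum_univ_two]
      simp only [Matrix.cons_val_zero, Matrix.cons_val_one, Matrix.cons_val_fin_one]
      rw [sum_zero N b x (fun c => ((max c b : ℕ) : ℝ)), max_self, card_AA_zero, nsmul_eq_mul,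
        sum_one N b x (fun c => ((max c a : ℕ) : ℝ)), sum_congr rfl fun i _ => by rw [e2 i],
          card_AA_one]
      have h5' : (e : ℝ) + 3 ≤ 4 * (N * (b + 1)) := by exact_mod_cast h5
      have h2' : (e : ℝ) + 3 ≤ 4 * (k + ∑ i, (x i : ℝ)) := by exact_mod_cast h2
      have m1 : max (((e : ℝ) + 3 - 1 / (2 * ((2 : ℕ) : ℝ))) / (2 * ((2 : ℕ) : ℝ)))
          ((N : ℝ) + N * (b : ℝ)) = N * (b + 1) := by
        rw [max_eq_right]
        · ring
        · rw [div_le_iff₀ (by norm_num)]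
          push_cast
          linarith
      have m2 : max (((e : ℝ) + 3 - 1 / (2 * ((2 : ℕ) : ℝ))) / (2 * ((2 : ℕ) : ℝ)))
          ((k : ℝ) + ∑ i, (x i : ℝ)) = k + ∑ i, (x i : ℝ) := by
        rw [max_eq_right]
        rw [div_le_iff₀ (by norm_num)]
        push_cast
        linarith
      rw [m1, m2]
      have e3 : ((N : ℝ) * (b + 1)) ^ 2 / N = N * ((b : ℝ) + 1) ^ 2 := by
        field_simp
      rw [e3]
      have e4 : ((e : ℝ) + 3 - 1 / (2 * ((2 : ℕ) : ℝ))) ^ 2 = ((e : ℝ) + 11 / 4) ^ 2 := by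
        push_cast
        ring
      rw [e4]
      exact h
  refine Sur_emb (v := Sum.elim (fun _ : Fin N => b) x) finSumFinEquiv.symm
    finSumFinEquiv.symm.injective (fun i => ?_) (fun j _ => ⟨finSumFinEquiv j, by simp⟩) hB.sur
  obtain ⟨j, rfl⟩ := finSumFinEquiv.surjective i
  rw [Equiv.symm_apply_apply]
  rcases j with j | j
  · simp [vv]
  · simp [vv]

end Pool.Agent.TH105.QH
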