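import Pool.Agent.TH105.QH.Crit

/-! Two blocks of points: lowering the second block, and the result. -/

set_option autoImplicit false

namespace Pool.Agent.TH105.QH

open Finset Pool.Agent.TH176.Nag Pool.Agent.TH603.Sur Pool.Agent.TH2.NU

theorem sum_upd {k : ℕ} (x : Fin k → ℕ) (j : Fin k) (c : ℕ) (f : ℕ → ℕ) :
    ∑ i, f (Function.update x j c i) + f (x j) = ∑ i, f (x i) + f c := by
  rw [Fintype.sum_eq_add_sum_compl j, Fintype.sum_eq_add_sum_compl j (fun i => f (x i))]
  have h : ∑ i ∈ ({j}ᶜ : Finset (Fin k)), f (Function.update x j c i) =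
      ∑ i ∈ ({j}ᶜ : Finset (Fin k)), f (x i) := sum_congr rfl fun i hi => by
    rw [Function.update_of_ne (by simpa using hi)]
  rw [h, Function.update_self]
  omega

theorem choose_succ (a : ℕ) : (a + 1 + 1).choose 2 = (a + 1).choose 2 + (a + 1) := by
  rw [Nat.choose_succ_succ' (a + 1) 1, Nat.choose_one_right]
  exact Nat.add_comm _ _

/-- one step -/
theorem step {k : ℕ} {x : Fin k → ℕ} (hx : NU x) (h : 0 < ∑ i, x i) :
    ∃ (x' : Fin k → ℕ) (v : ℕ), NU x' ∧ (∀ i, x' i ≤ x i) ∧ ∑ i, x' i + 1 = ∑ i, x i ∧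
      Pool.Agent.TH603.Sur.cond x' + v = Pool.Agent.TH603.Sur.cond x ∧ k * v ≤ ∑ i, x i + k := by
  obtain ⟨a, ha⟩ := hx
  have hlow : k * a ≤ ∑ i, x i := by
    have h1 : ∑ _i : Fin k, a ≤ ∑ i, x i := sum_le_sum fun i _ => by
      rcases ha i with h | h <;> omega
    simpa using h1
  by_cases hj : ∃ j, x j = a + 1
  · obtain ⟨j, hj⟩ := hj
    refine ⟨Function.update x j a, a + 1, ⟨a, fun i => ?_⟩, fun i => ?_, ?_, ?_, ?_⟩
    · by_cases hi : i = j
      · subst hi; left; rw [Function.update_self]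
      · rw [Function.update_of_ne hi]; exact ha i
    · by_cases hi : i = j
      · subst hi; rw [Function.update_self]; omega
      · rw [Function.update_of_ne hi]
    · have := sum_upd x j a (fun c => c)
      omega
    · have := sum_upd x j a (fun c => (c + 1).choose 2)
      rw [hj, choose_succ] at this
      unfold Pool.Agent.TH603.Sur.cond
      omega
    · rw [mul_add, mul_one]; omega
  · push Not at hj
    have hall : ∀ i, x i = a := fun i => (ha i).resolve_right (hj i)
    obtain ⟨j, -, hj0⟩ := exists_ne_zero_of_sum_ne_zero h.ne'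
    have ha0 : a ≠ 0 := by rw [← hall j]; exact hj0
    obtain ⟨c, rfl⟩ := Nat.exists_eq_succ_of_ne_zero ha0
    refine ⟨Function.update x j c, c + 1, ⟨c, fun i => ?_⟩, fun i => ?_, ?_, ?_, ?_⟩
    · by_cases hi : i = j
      · subst hi; left; rw [Function.update_self]
      · rw [Function.update_of_ne hi]; right; exact hall i
    · by_cases hi : i = j
      · subst hi; rw [Function.update_self, hall i]; omega
      · rw [Function.update_of_ne hi]
    · have := sum_upd x j c (fun c => c)
      have := hall j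
      omega
    · have := sum_upd x j c (fun c => (c + 1).choose 2)
      rw [hall j, Nat.succ_eq_add_one, choose_succ] at this
      unfold Pool.Agent.TH603.Sur.cond
      omega
    · have : k * (c + 1) ≤ ∑ i, x i := hlow
      omega

theorem lower {N b k : ℕ} (hk : 0 < k) (C : ℕ) : ∀ (n : ℕ) {x : Fin k → ℕ}, ∑ i, x i = n → NU x →
    C ≤ Pool.Agent.TH603.Sur.cond (V N b x) →
    ∃ x' : Fin k → ℕ, NU x' ∧ (∀ i, x' i ≤ x i) ∧ C ≤ Pool.Agent.TH603.Sur.cond (V N b x') ∧
      (∑ i, x' i = 0 ∨ k * Pool.Agent.TH603.Sur.cond (V N b x') < k * C + ∑ i, x' i + k) := by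
  intro n
  induction n with
  | zero => intro x hn hx h; exact ⟨x, hx, fun _ => le_rfl, h, Or.inl hn⟩
  | succ n ih =>
    intro x hn hx h
    by_cases hlt : k * Pool.Agent.TH603.Sur.cond (V N b x) < k * C + ∑ i, x i + k
    · exact ⟨x, hx, fun _ => le_rfl, h, Or.inr hlt⟩
    · push Not at hlt
      obtain ⟨x1, v, h1, h2, h3, h4, h5⟩ := step hx (by omega)
      have h6 : C ≤ Pool.Agent.TH603.Sur.cond (V N b x1) := by
        rw [cond_V] at hlt ⊢
        rw [← h4] at hlt
        have : k * C ≤ k * (N * ((b + 1).choose 2 + (b + 1) / 2) +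
            Pool.Agent.TH603.Sur.cond x1) := by
          have e : k * (N * ((b + 1).choose 2 + (b + 1) / 2) + (Pool.Agent.TH603.Sur.cond x1 + v)) =
            k * (N * ((b + 1).choose 2 + (b + 1) / 2) + Pool.Agent.TH603.Sur.cond x1) + k * v := by
            ring
          rw [e] at hlt
          omega
        exact Nat.le_of_mul_le_mul_left this hk
      obtain ⟨x', a1, a2, a3, a4⟩ := ih (by omega) h1 h6
      exact ⟨x', a1, fun i => (a2 i).trans (h2 i), a3, a4⟩

theorem two_tri (d : ℕ) : 2 * (d + 2).choose 2 = (d + 1) * (d + 2) := by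
  rw [Nat.choose_two_right]
  have h := (Nat.even_mul_succ_self (d + 1)).two_dvd
  have e : (d + 2) * (d + 1) = (d + 1) * (d + 1 + 1) := by ring
  rw [show d + 2 - 1 = d + 1 by omega, e, Nat.mul_div_cancel' h]

/-- **the critical degrees** -/
theorem crit {N b k d : ℕ} {x : Fin k → ℕ} (hN : 0 < N) (hk : 0 < k) (hx : NU x)
    (h1 : (d + 2).choose 2 ≤ Pool.Agent.TH603.Sur.cond (V N b x))
    (h2 : Pool.Agent.TH603.Sur.cond (V N b x) < (d + 3).choose 2)
    (h3 : 4 * (b + 1) ≤ d) (h4 : d + 16 * k ≤ 4 * ∑ i, x i)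
    (h5 : 4 * ∑ i, x i + 2 * k * (N + k + ∑ i, x i + 1) ≤ k * d) :
    Emp (V N b x) (TZ d) ∧ Sur (V N b x) (TZ (d + 1)) := by
  obtain ⟨c, hc⟩ : ∃ c, c = Pool.Agent.TH603.Sur.cond (V N b x) := ⟨_, rfl⟩
  obtain ⟨S, hS⟩ : ∃ S, S = ∑ i, x i := ⟨_, rfl⟩
  rw [← hc] at h1 h2
  rw [← hS] at h4 h5
  have t1 := two_tri d
  have t2 := two_tri (d + 1)
  have hS4 : 2 * (N + k + S + 1) ≤ d := by
    have : k * (2 * (N + k + S + 1)) ≤ k * d := by
      have e : k * (2 * (N + k + S + 1)) = 2 * k * (N + k + S + 1) := by ring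
      omega
    exact Nat.le_of_mul_le_mul_left this hk
  have hS3 : 4 * (k + S) ≤ k * d := by
    have : 2 * k * 2 ≤ 2 * k * (N + k + S + 1) := Nat.mul_le_mul_left _ (by omega)
    omega
  have c1 : (d + 1) * (d + 2) ≤ 2 * c := by omega
  have c2 : 2 * c + 2 ≤ (d + 2) * (d + 3) := by
    have e : (d + 1 + 1) * (d + 1 + 2) = (d + 2) * (d + 3) := by ring
    rw [e] at t2
    have : (d + 1 + 2).choose 2 = (d + 3).choose 2 := rfl
    omega
  constructor
  · by_cases hd : d % 4 = 0
    · obtain ⟨x', a1, a2, a3, a4⟩ := lower (N := N) (b := b) hk ((d + 2).choose 2) S hS.symm hx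
        (by rw [← hc]; exact h1)
      obtain ⟨c', hc'⟩ : ∃ c', c' = Pool.Agent.TH603.Sur.cond (V N b x') := ⟨_, rfl⟩
      obtain ⟨S', hS'⟩ : ∃ S', S' = ∑ i, x' i := ⟨_, rfl⟩
      rw [← hc', ← hS'] at a4
      rw [← hc'] at a3
      have hSS : S' ≤ S := by rw [hS, hS']; exact sum_le_sum fun i _ => a2 i
      have hS4' : d < 4 * S' := by
        by_contra hcon
        push Not at hcon
        have u1 := cond_x x
        have u2 := cond_x x'
        have u3 := sum_sq_le x
        have u4 := a1.sq_le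
        have e1 : c = N * ((b + 1).choose 2 + (b + 1) / 2) + Pool.Agent.TH603.Sur.cond x := by
          rw [hc, cond_V]
        have e2 : c' = N * ((b + 1).choose 2 + (b + 1) / 2) + Pool.Agent.TH603.Sur.cond x' := by
          rw [hc', cond_V]
        have e3 : Pool.Agent.TH603.Sur.cond x < Pool.Agent.TH603.Sur.cond x' + (d + 2) := by
          have : c < c' + (d + 2) := by
            have e4 : (d + 2) * (d + 3) = (d + 1) * (d + 2) + 2 * (d + 2) := by ring
            omega
          omega
        have e3' : (Pool.Agent.TH603.Sur.cond x : ℝ) < Pool.Agent.TH603.Sur.cond x' + (d + 2) := by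
          exact_mod_cast e3
        have g1 : ((S : ℕ) : ℝ) = ∑ i, (x i : ℝ) := by rw [hS]; push_cast; rfl
        have g2 : ((S' : ℕ) : ℝ) = ∑ i, (x' i : ℝ) := by rw [hS']; push_cast; rfl
        rw [← g1] at u1 u3
        rw [← g2] at u2 u4
        have h4' : (d : ℝ) + 16 * k ≤ 4 * S := by exact_mod_cast h4
        have hcon' : 4 * (S' : ℝ) ≤ d := by exact_mod_cast hcon
        have hk' : (1 : ℝ) ≤ k := by exact_mod_cast hk
        have hS0 : (0 : ℝ) ≤ S' := Nat.cast_nonneg _
        have hd0 : (0 : ℝ) ≤ d := Nat.cast_nonneg _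
        have w1 : ((d : ℝ) + 16 * k) ^ 2 ≤ (4 * S) ^ 2 := pow_le_pow_left₀ (by positivity) h4' 2
        have w2 : (4 * (S' : ℝ)) ^ 2 ≤ d ^ 2 := pow_le_pow_left₀ (by positivity) hcon' 2
        have w3 : (k : ℝ) * (2 * Pool.Agent.TH603.Sur.cond x) <
            k * (2 * (Pool.Agent.TH603.Sur.cond x' + (d + 2))) :=
          mul_lt_mul_of_pos_left (by linarith) (by linarith)
        have w4 : (k : ℝ) * (S' + 4 * k) ≤ k * S := mul_le_mul_of_nonneg_left (by linarith) (by linarith)
        rw [mul_add 2, u1, u2] at w3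
        nlinarith
      have a5 : k * c' < k * (d + 2).choose 2 + S' + k := by
        rcases a4 with h | h
        · omega
        · exact h
      have hk1 : k * (4 * c' + 2 * (N + k + S')) ≤ k * (2 * d ^ 2 + 7 * d + 6) := by
        have e1 : k * (4 * c' + 2 * (N + k + S')) = 4 * (k * c') + 2 * k * (N + k + S') := by ring
        have e2 : k * (2 * d ^ 2 + 7 * d + 6) = 2 * (k * ((d + 1) * (d + 2))) + k * d + 2 * k := by ring
        have e3 : 2 * k * (N + k + S') ≤ 2 * k * (N + k + S) := Nat.mul_le_mul_left _ (by omega)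
        have e4 : 2 * k * (N + k + S + 1) = 2 * k * (N + k + S) + 2 * k := by ring
        have e5 : k * (2 * (d + 2).choose 2) = k * ((d + 1) * (d + 2)) := by rw [t1]
        have e6 : k * (2 * (d + 2).choose 2) = 2 * (k * (d + 2).choose 2) := by ring
        rw [e1, e2]
        omega
      have key := core hN hk a1 h3 (by rw [← hS']; exact hS4')
        (by
          rw [← hS']
          omega)
        (by rw [← hS']; omega)
        (by
          rw [← hc']
          have : d * (d + 1) ≤ (d + 1) * (d + 2) := by nlinarith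
          omega)
        (Or.inl (by rw [← hc', ← hS']; exact Nat.le_of_mul_le_mul_left hk1 hk))
      have key2 := key.1 (by rw [← hc']; exact a3)
      refine Emp_emb (w := V N b x') (v := V N b x) id Function.injective_id ?_ key2
      rintro (i | i)
      · exact le_rfl
      · exact a2 i
    · have key := core hN hk hx h3 (by rw [← hS]; omega) (by rw [← hS]; exact hS3)
        (by rw [← hS]; omega)
        (by
          rw [← hc]
          have : d * (d + 1) ≤ (d + 1) * (d + 2) := by nlinarith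
          omega)
        (Or.inr ⟨hd, by
          rw [← hc, ← hS]
          have e : (d + 2) * (d + 3) = d ^ 2 + 5 * d + 6 := by ring
          omega⟩)
      exact key.1 (by rw [← hc]; exact h1)
  · have key := core (b := b) (d := d + 1) hN hk hx (by omega) (by rw [← hS]; omega)
      (by
        rw [← hS]
        have : k * d ≤ k * (d + 1) := Nat.mul_le_mul_left _ (by omega)
        omega)
      (by rw [← hS]; omega) (by rw [← hc]; exact c1)
      (Or.inl (by
        rw [← hc, ← hS]
        have e : 2 * (d + 1) ^ 2 + 7 * (d + 1) + 6 = 2 * ((d + 2) * (d + 3)) + d + 3 := by ring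
        rw [e]
        omega))
    exact key.2 (by rw [← hc]; exact h2.le)

end Pool.Agent.TH105.QH
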