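import Pool.Agent.TH105.QH.Core3

/-! Two blocks of points: lowering and raising the second block. -/

set_option autoImplicit false

namespace Pool.Agent.TH105.QH

open Finset Pool.Agent.TH176.Nag Pool.Agent.TH603.Sur Pool.Agent.TH2.NU Pool.Agent.TH641.UM
  Pool.Agent.H932R3

theorem step_up {k : ℕ} (hk : 0 < k) {x : Fin k → ℕ} (hx : NU x) :
    ∃ (x' : Fin k → ℕ) (v : ℕ), NU x' ∧ (∀ i, x i ≤ x' i) ∧ ∑ i, x' i = ∑ i, x i + 1 ∧ 0 < v ∧
      Pool.Agent.TH603.Sur.cond x' = Pool.Agent.TH603.Sur.cond x + v ∧ k * v ≤ ∑ i, x i + k := by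
  obtain ⟨a, ha⟩ := hx
  by_cases hj : ∃ j, x j = a
  · obtain ⟨j, hj⟩ := hj
    have hlow : k * a ≤ ∑ i, x i := by
      have h1 : ∑ _i : Fin k, a ≤ ∑ i, x i := sum_le_sum fun i _ => by
        rcases ha i with h | h <;> omega
      simpa using h1
    refine ⟨Function.update x j (a + 1), a + 1, ⟨a, fun i => ?_⟩, fun i => ?_, ?_, by omega, ?_, ?_⟩
    · by_cases hi : i = j
      · subst hi; right; rw [Function.update_self]
      · rw [Function.update_of_ne hi]; exact ha i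
    · by_cases hi : i = j
      · subst hi; rw [Function.update_self]; omega
      · rw [Function.update_of_ne hi]
    · have := sum_upd x j (a + 1) (fun c => c)
      omega
    · have := sum_upd x j (a + 1) (fun c => (c + 1).choose 2)
      rw [hj, choose_succ] at this
      unfold Pool.Agent.TH603.Sur.cond
      omega
    · rw [mul_add, mul_one]; omega
  · push Not at hj
    have hall : ∀ i, x i = a + 1 := fun i => (ha i).resolve_left (hj i)
    have hlow : k * (a + 1) ≤ ∑ i, x i := by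
      have h1 : ∑ _i : Fin k, (a + 1) ≤ ∑ i, x i := sum_le_sum fun i _ => (hall i).ge
      simpa using h1
    obtain ⟨j, -⟩ : ∃ j : Fin k, True := ⟨⟨0, hk⟩, trivial⟩
    refine ⟨Function.update x j (a + 1 + 1), a + 1 + 1, ⟨a + 1, fun i => ?_⟩, fun i => ?_, ?_,
      by omega, ?_, ?_⟩
    · by_cases hi : i = j
      · subst hi; right; rw [Function.update_self]
      · rw [Function.update_of_ne hi]; left; exact hall i
    · by_cases hi : i = j
      · subst hi; rw [Function.update_self, hall i]; omega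
      · rw [Function.update_of_ne hi]
    · have := sum_upd x j (a + 1 + 1) (fun c => c)
      have := hall j
      omega
    · have := sum_upd x j (a + 1 + 1) (fun c => (c + 1).choose 2)
      rw [hall j, choose_succ (a + 1)] at this
      unfold Pool.Agent.TH603.Sur.cond
      omega
    · rw [mul_add, mul_one]; omega

theorem raise {N b k : ℕ} (hk : 0 < k) (C : ℕ) : ∀ (n : ℕ) {x : Fin k → ℕ},
    C - Pool.Agent.TH603.Sur.cond (V N b x) ≤ n → NU x →
    Pool.Agent.TH603.Sur.cond (V N b x) ≤ C →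
    ∃ x' : Fin k → ℕ, NU x' ∧ (∀ i, x i ≤ x' i) ∧ Pool.Agent.TH603.Sur.cond (V N b x') ≤ C ∧
      k * C < k * Pool.Agent.TH603.Sur.cond (V N b x') + ∑ i, x' i + k := by
  intro n
  induction n with
  | zero =>
    intro x hn hx h
    refine ⟨x, hx, fun _ => le_rfl, h, ?_⟩
    have e : Pool.Agent.TH603.Sur.cond (V N b x) = C := by omega
    rw [e]
    omega
  | succ n ih =>
    intro x hn hx h
    by_cases hlt : k * C < k * Pool.Agent.TH603.Sur.cond (V N b x) + ∑ i, x i + k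
    · exact ⟨x, hx, fun _ => le_rfl, h, hlt⟩
    · push Not at hlt
      obtain ⟨x1, v, h1, h2, h3, h0, h4, h5⟩ := step_up hk hx
      have h7 : Pool.Agent.TH603.Sur.cond (V N b x1) =
          Pool.Agent.TH603.Sur.cond (V N b x) + v := by
        rw [cond_V, cond_V, h4, add_assoc]
      have h6 : Pool.Agent.TH603.Sur.cond (V N b x1) ≤ C := by
        rw [h7]
        have : k * (Pool.Agent.TH603.Sur.cond (V N b x) + v) ≤ k * C := by
          rw [mul_add]
          omega
        exact Nat.le_of_mul_le_mul_left this hk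
      obtain ⟨x', a1, a2, a3, a4⟩ := ih (by omega) h1 h6
      exact ⟨x', a1, fun i => (h2 i).trans (a2 i), a3, a4⟩

theorem low_big {N b k d : ℕ} {x x' : Fin k → ℕ} (hk : 0 < k) (a1 : NU x')
    (c1 : (d + 1) * (d + 2) ≤ 2 * Pool.Agent.TH603.Sur.cond (V N b x'))
    (c2 : 2 * Pool.Agent.TH603.Sur.cond (V N b x) + 2 ≤ (d + 2) * (d + 3))
    (h4 : d + 16 * k ≤ 4 * ∑ i, x i) : d < 4 * ∑ i, x' i := by
  obtain ⟨S, hS⟩ : ∃ S, S = ∑ i, x i := ⟨_, rfl⟩
  obtain ⟨S', hS'⟩ : ∃ S', S' = ∑ i, x' i := ⟨_, rfl⟩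
  rw [← hS] at h4
  rw [← hS']
  by_contra hcon
  push Not at hcon
  have u1 := cond_x x
  have u2 := cond_x x'
  have u3 := sum_sq_le x
  have u4 := a1.sq_le
  have e1 := cond_V N b x
  have e2 := cond_V N b x'
  have e3 : Pool.Agent.TH603.Sur.cond x < Pool.Agent.TH603.Sur.cond x' + (d + 2) := by
    have e4 : (d + 2) * (d + 3) = (d + 1) * (d + 2) + 2 * (d + 2) := by ring
    omega
  have e3' : (Pool.Agent.TH603.Sur.cond x : ℝ) < Pool.Agent.TH603.Sur.cond x' + (d + 2) := by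
    exact_mod_cast e3
  have g1 : ((S : ℕ) : ℝ) = ∑ i, (x i : ℝ) := by rw [hS]; push_cast; rfl
  have g2 : ((S' : ℕ) : ℝ) = ∑ i, (x' i : ℝ) := by rw [hS']; push_cast; rfl
  rw [← g1] at u1 u3
  rw [← g2] at u2 u4
  have h4' : (d : ℝ) + 16 * k ≤ 4 * S := by exact_mod_cast h4
  have hcon' : 4 * (S' : ℝ) ≤ d := by exact_mod_cast hcon
  have hk' : (1 : ℝ) ≤ k := by exact_mod_cast hk
  have hS0 : (0 : ℝ) ≤ S' := Nat.cast_nonneg _
  have hd0 : (0 : ℝ) ≤ d := Nat.cast_nonneg _
  have w1 : ((d : ℝ) + 16 * k) ^ 2 ≤ (4 * S) ^ 2 := pow_le_pow_left₀ (by positivity) h4' 2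
  have w2 : (4 * (S' : ℝ)) ^ 2 ≤ d ^ 2 := pow_le_pow_left₀ (by positivity) hcon' 2
  have w3 : (k : ℝ) * (2 * Pool.Agent.TH603.Sur.cond x) <
      k * (2 * (Pool.Agent.TH603.Sur.cond x' + (d + 2))) :=
    mul_lt_mul_of_pos_left (by linarith) (by linarith)
  have w4 : (k : ℝ) * (S' + 4 * k) ≤ k * S := mul_le_mul_of_nonneg_left (by linarith) (by linarith)
  rw [mul_add 2, u1, u2] at w3
  nlinarith

theorem up_small {N b k d : ℕ} {x x' : Fin k → ℕ} (hk : 0 < k) (a1 : NU x)
    (c1 : (d + 1) * (d + 2) ≤ 2 * Pool.Agent.TH603.Sur.cond (V N b x))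
    (c2 : 2 * Pool.Agent.TH603.Sur.cond (V N b x') ≤ (d + 2) * (d + 3))
    (h4 : d + 16 * k ≤ 4 * ∑ i, x i) : ∑ i, x' i ≤ ∑ i, x i + 4 * k + 4 := by
  obtain ⟨S, hS⟩ : ∃ S, S = ∑ i, x i := ⟨_, rfl⟩
  obtain ⟨S', hS'⟩ : ∃ S', S' = ∑ i, x' i := ⟨_, rfl⟩
  rw [← hS] at h4
  rw [← hS, ← hS']
  by_contra hcon
  push Not at hcon
  have hcon1 : S + 4 * k + 5 ≤ S' := hcon
  have u1 := cond_x x
  have u2 := cond_x x'
  have u3 := sum_sq_le x'
  have u4 := a1.sq_le
  have e1 := cond_V N b x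
  have e2 := cond_V N b x'
  have e3 : Pool.Agent.TH603.Sur.cond x' ≤ Pool.Agent.TH603.Sur.cond x + (d + 2) := by
    have e4 : (d + 2) * (d + 3) = (d + 1) * (d + 2) + 2 * (d + 2) := by ring
    omega
  have e3' : (Pool.Agent.TH603.Sur.cond x' : ℝ) ≤ Pool.Agent.TH603.Sur.cond x + (d + 2) := by
    exact_mod_cast e3
  have g1 : ((S : ℕ) : ℝ) = ∑ i, (x i : ℝ) := by rw [hS]; push_cast; rfl
  have g2 : ((S' : ℕ) : ℝ) = ∑ i, (x' i : ℝ) := by rw [hS']; push_cast; rfl
  rw [← g1] at u1 u4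
  rw [← g2] at u2 u3
  have h4' : (d : ℝ) + 16 * k ≤ 4 * S := by exact_mod_cast h4
  have hcon' : (S : ℝ) + 4 * k + 5 ≤ S' := by exact_mod_cast hcon1
  have hk' : (1 : ℝ) ≤ k := by exact_mod_cast hk
  have hS0 : (0 : ℝ) ≤ S := Nat.cast_nonneg _
  have hd0 : (0 : ℝ) ≤ d := Nat.cast_nonneg _
  have w1 : ((S : ℝ) + 4 * k + 5) ^ 2 ≤ S' ^ 2 := pow_le_pow_left₀ (by positivity) hcon' 2
  have w3 : (k : ℝ) * (2 * Pool.Agent.TH603.Sur.cond x') ≤
      k * (2 * (Pool.Agent.TH603.Sur.cond x + (d + 2))) :=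
    mul_le_mul_of_nonneg_left (by linarith) (by linarith)
  have w4 : (k : ℝ) * (S + 4 * k + 5) ≤ k * S' := mul_le_mul_of_nonneg_left hcon' (by linarith)
  have w5 : (4 * (k : ℝ) + 5) * (d + 16 * k) ≤ (4 * k + 5) * (4 * S) :=
    mul_le_mul_of_nonneg_left h4' (by positivity)
  rw [mul_add 2, u1, u2] at w3
  nlinarith

/-- **the critical degrees, wider range** -/
theorem crit3 {N b k d K K' : ℕ} {x : Fin k → ℕ} (hN : 0 < N) (hk : 0 < k) (hx : NU x)
    (h1 : (d + 2).choose 2 ≤ Pool.Agent.TH603.Sur.cond (V N b x))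
    (h2 : Pool.Agent.TH603.Sur.cond (V N b x) < (d + 3).choose 2)
    (hK : 2 ≤ K) (hmod : (d + 3) % (2 * K) ≤ K) (hKb : 2 * K * (b + 1) ≤ d)
    (hKx : 2 * K * (5 * k + ∑ i, x i + 4) ≤ k * d)
    (hK' : 2 ≤ K') (hmod' : (d + 1 + 3) % (2 * K') ≤ K') (hKb' : 2 * K' * (b + 1) ≤ d)
    (hKx' : 2 * K' * (5 * k + ∑ i, x i + 4) ≤ k * d)
    (h4 : d + 16 * k ≤ 4 * ∑ i, x i)
    (h6 : 4 * ∑ i, x i + 2 * k * (N + 5 * k + ∑ i, x i + 5) ≤ 5 * (k * d)) :
    Emp (V N b x) (TZ d) ∧ Sur (V N b x) (TZ (d + 1)) := by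
  obtain ⟨c, hc⟩ : ∃ c, c = Pool.Agent.TH603.Sur.cond (V N b x) := ⟨_, rfl⟩
  obtain ⟨S, hS⟩ : ∃ S, S = ∑ i, x i := ⟨_, rfl⟩
  rw [← hc] at h1 h2
  rw [← hS] at h4 hKx hKx' h6
  have h3 : 4 * (b + 1) ≤ d := (Nat.mul_le_mul_right (b + 1) (by omega : 4 ≤ 2 * K)).trans hKb
  have h5 : 4 * S + 20 * k + 16 ≤ k * d := by
    have : 4 * (5 * k + S + 4) ≤ 2 * K * (5 * k + S + 4) := Nat.mul_le_mul_right _ (by omega)
    omega
  have t1 := two_tri d
  have t2 := two_tri (d + 1)
  have hS6 : 2 * (N + 5 * k + S + 5) ≤ 5 * d := by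
    have : k * (2 * (N + 5 * k + S + 5)) ≤ k * (5 * d) := by
      have e : k * (2 * (N + 5 * k + S + 5)) = 2 * k * (N + 5 * k + S + 5) := by ring
      have e2 : k * (5 * d) = 5 * (k * d) := by ring
      omega
    exact Nat.le_of_mul_le_mul_left this hk
  have c1 : (d + 1) * (d + 2) ≤ 2 * c := by omega
  have e23 : (d + 1 + 1) * (d + 1 + 2) = (d + 2) * (d + 3) := by ring
  rw [e23] at t2
  have t2' : 2 * (d + 3).choose 2 = (d + 2) * (d + 3) := t2
  have c2 : 2 * c + 2 ≤ (d + 2) * (d + 3) := by omega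
  have hS4 : 4 * S + 20 * k + 16 ≤ k * d := h5
  constructor
  · obtain ⟨x', a1, a2, a3, a4⟩ := lower (N := N) (b := b) hk ((d + 2).choose 2) S hS.symm hx
      (by rw [← hc]; exact h1)
    have hS4' := low_big (N := N) (b := b) (d := d) (x := x) hk a1 (by omega)
      (by rw [← hc]; exact c2) (by rw [← hS]; exact h4)
    obtain ⟨c', hc'⟩ : ∃ c', c' = Pool.Agent.TH603.Sur.cond (V N b x') := ⟨_, rfl⟩
    obtain ⟨S', hS'⟩ : ∃ S', S' = ∑ i, x' i := ⟨_, rfl⟩
    rw [← hc', ← hS'] at a4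
    rw [← hc'] at a3
    rw [← hS'] at hS4'
    have hSS : S' ≤ S := by rw [hS, hS']; exact sum_le_sum fun i _ => a2 i
    have a5 : k * c' < k * (d + 2).choose 2 + S' + k := by
      rcases a4 with h | h
      · omega
      · exact h
    have hk1 : k * (4 * c' + 2 * (N + k + S')) ≤ k * (2 * d ^ 2 + 11 * d + 15) := by
      have e1 : k * (4 * c' + 2 * (N + k + S')) = 4 * (k * c') + 2 * k * (N + k + S') := by ring
      have e2 : k * (2 * d ^ 2 + 11 * d + 15) =
        2 * (k * ((d + 1) * (d + 2))) + 5 * (k * d) + 11 * k := by ring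
      have e3 : 2 * k * (N + k + S') ≤ 2 * k * (N + 5 * k + S + 5) := Nat.mul_le_mul_left _ (by omega)
      have e5 : k * (2 * (d + 2).choose 2) = k * ((d + 1) * (d + 2)) := by rw [t1]
      have e6 : k * (2 * (d + 2).choose 2) = 2 * (k * (d + 2).choose 2) := by ring
      rw [e1, e2]
      omega
    have key := core3 hN hk a1 h3 (by rw [← hS']; exact hS4')
      (by
        rw [← hS']
        omega)
      (by rw [← hS']; omega)
      (by
        rw [← hc', ← hS']
        have e7 : 4 * ((d + 1) * (d + 2)) = 4 * d ^ 2 + 12 * d + 8 := by ring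
        omega)
      (by rw [← hc', ← hS']; exact Nat.le_of_mul_le_mul_left hk1 hk) hK hmod (by omega)
      (by
        rw [← hS']
        have r1 : 2 * K * (k + S') ≤ 2 * K * (5 * k + S + 4) := Nat.mul_le_mul_left _ (by omega)
        have r2 : k * d ≤ k * (d + 2) := Nat.mul_le_mul_left _ (by omega)
        exact r1.trans (hKx.trans r2))
    have key2 := key.1 (by rw [← hc']; exact a3)
    refine Emp_emb (w := V N b x') (v := V N b x) id Function.injective_id ?_ key2
    rintro (i | i)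
    · exact le_rfl
    · exact a2 i
  · obtain ⟨x', a1, a2, a3, a4⟩ := raise (N := N) (b := b) hk ((d + 3).choose 2) _ le_rfl hx
      (by rw [← hc]; exact h2.le)
    have hup := up_small (N := N) (b := b) (x := x) (x' := x') (d := d) hk hx (by rw [← hc]; exact c1)
      (by omega) (by rw [← hS]; exact h4)
    obtain ⟨c', hc'⟩ : ∃ c', c' = Pool.Agent.TH603.Sur.cond (V N b x') := ⟨_, rfl⟩
    obtain ⟨S', hS'⟩ : ∃ S', S' = ∑ i, x' i := ⟨_, rfl⟩
    rw [← hc'] at a3
    rw [← hc', ← hS'] at a4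
    rw [← hS, ← hS'] at hup
    have hSS : S ≤ S' := by rw [hS, hS']; exact sum_le_sum fun i _ => a2 i
    have hkd : k * d ≤ k * (d + 1) := Nat.mul_le_mul_left _ (by omega)
    have hSk : S ≤ k * d := by omega
    have hlow : 4 * (d + 1) ^ 2 + 4 * S' + k < 8 * c' := by
      have hk2 : k * (4 * (d + 1) ^ 2 + 4 * S' + k) < k * (8 * c') := by
        have e1 : k * (8 * c') = 8 * (k * c') := by ring
        have e2 : k * (4 * (d + 1) ^ 2 + 4 * S' + k) + 12 * (k * d) + 20 * k =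
            4 * (k * ((d + 2) * (d + 3))) + 4 * (k * S') + k * k := by ring
        have e5 : k * (2 * (d + 3).choose 2) = k * ((d + 2) * (d + 3)) := by rw [t2']
        have e6 : k * (2 * (d + 3).choose 2) = 2 * (k * (d + 3).choose 2) := by ring
        have e7 : k * S' ≤ k * (S + 4 * k + 4) := Nat.mul_le_mul_left _ hup
        have e8 : k * (S + 4 * k + 4) = k * S + 4 * (k * k) + 4 * k := by ring
        have e9 : 2 * k * (N + 5 * k + S + 5) = 2 * (k * N) + 10 * (k * k) + 2 * (k * S) + 10 * k := by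
          ring
        have e10 : k ≤ k * N := Nat.le_mul_of_pos_right k hN
        have e11 : 36 * k ≤ k * d := by
          have : 4 * S + 20 * k + 16 ≤ k * d := h5
          omega
        have e13 : 16 * k + 32 ≤ 2 * (k * d) := by omega
        rw [e1]
        generalize k * (4 * (d + 1) ^ 2 + 4 * S' + k) = z0 at e2 ⊢
        generalize k * ((d + 2) * (d + 3)) = z1 at e2 e5
        rw [e8] at e7
        rw [e9] at h6
        rw [e6] at e5
        generalize k * S' = z2 at e2 e7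
        generalize k * k = z3 at e2 e7 h6
        generalize k * d = z4 at e2 e13 h6
        generalize k * (d + 3).choose 2 = z5 at a4 e5
        generalize k * c' = z6 at a4 ⊢
        generalize k * S = z7 at e7 h6
        generalize k * N = z8 at h6
        omega
      exact lt_of_mul_lt_mul_left hk2 (Nat.zero_le k)
    have key := core3 (b := b) (d := d + 1) hN hk a1 (by omega) (by rw [← hS']; omega)
      (by
        rw [← hS']
        omega)
      (by rw [← hS']; omega)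
      (by rw [← hc', ← hS']; exact hlow)
      (by
        rw [← hc', ← hS']
        have e7 : 2 * ((d + 2) * (d + 3)) + 2 * (N + k + S') ≤ 2 * (d + 1) ^ 2 + 11 * (d + 1) + 15 := by
          have e8 : 2 * (d + 1) ^ 2 + 11 * (d + 1) + 15 = 2 * ((d + 2) * (d + 3)) + 5 * d + 16 := by ring
          omega
        omega) hK' hmod' (by omega)
      (by
        rw [← hS']
        have r1 : 2 * K' * (k + S') ≤ 2 * K' * (5 * k + S + 4) := Nat.mul_le_mul_left _ (by omega)
        have r2 : k * d ≤ k * (d + 1 + 2) := Nat.mul_le_mul_left _ (by omega)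
        exact r1.trans (hKx'.trans r2))
    have key2 := key.2 (by rw [← hc']; exact a3)
    refine Sur_anti (v := V N b x) (w := V N b x') ?_ key2
    rintro (i | i)
    · exact le_rfl
    · exact a2 i

end Pool.Agent.TH105.QH
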